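import Mathlib
import Pool.Agent.Y229.CF.Loc

/-!
# The local monodromy conjecture for polynomials nondegenerate for the compact faces

Let `f = ∑_j a_j x ^ (v j)`, `f(0) = 0`, be a polynomial in any number of variables which is
nondegenerate at the origin in the usual sense of Kouchnirenko and Varchenko: for every COMPACT face
of the Newton polyhedron `conv {v_j} + ℝ_{≥ 0} ^ N` the face polynomial and its derivatives have no
common zero in the torus. Nothing is assumed on the terms of `f` above the compact faces, on the
other faces of the Newton polytope, or on the number of variables; the singularity at the origin need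
not be isolated and `f` need not be convenient. Then every pole `s0` of the local topological zeta
function of `f` at the origin satisfies `b_{f,0}(s0 - i) = 0` for some natural number `i`, where
`b_{f,0}` is the Bernstein-Sato polynomial of the germ of `f` at the origin. By the theorem of
Malgrange and Kashiwara, `exp(2 π i s0)` is an eigenvalue of the monodromy of `f` at some point of
`{f = 0}` near the origin: this settles the question of the problem for the non-degenerate
polynomials of the problem text.

Method. The polynomial is deformed to very general coefficients, over `ℂ⟦τ⟧`. If all faces of the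
Newton polytope are nondegenerate, the sequences `s ↦ s (s - 1) ⋯ (s - m + 1) x ^ c f ^ (s - m)`, `c` in
`m` times the Newton polytope, generate a finitely generated module over `ℂ⟦τ⟧[s, x_1 ∂_1, …]` with
connection `∇_τ`, which has no `τ`-divisible elements. For compact faces only, this fails: the
theorem of Kouchnirenko holds modulo `(x_1, …, x_N)`, for `c` in `m` times the Newton polyhedron.
But the module generated by the terms with `c` in the Newton polyhedron is finitely generated modulo
the terms divisible by monomials of degree `k`, for every `k`; these submodules are stable under
`∇_τ`. Hence the functional equation of `f` extends to the family, multiplied by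
`s (s - 1) ⋯ (s - L + 1)` with `L` independent of `k`, up to terms which are divisible by monomials of
degree `k`. For `k` large these terms do not contribute to the relation for the coefficients of
`x ^ (∑ u_j v_j)` in `f ^ s`, which gives the pole part of the topological zeta function. Its poles
are negative, hence not zeros of `s (s - 1) ⋯ (s - L + 1)`.
-/

set_option autoImplicit false

namespace Pool.Agent.Results.MP_aa7fc1_ag.NondegenerateCompactFaces

open Polynomial Pool.Agent.H628R4.TZ Pool.Agent.W425.SM Pool.Agent.W422.GC Pool.Agent.W425.ND
open Pool.Agent.Y229.CF (NondegC)

/-- **The (weak) monodromy conjecture for the local topological zeta function at the origin of every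
polynomial `f = ∑_j a_j x ^ (v j)`, `f(0) = 0`, which is nondegenerate with respect to the compact
faces of its Newton polyhedron at the origin.**

`NondegC v a` says that for every `w ∈ ℝ ^ N` with positive coordinates the face polynomial of `f`
(the sum of the terms `a_j x ^ (v j)` on which `⟨w, v j⟩` is minimal) and its logarithmic derivatives
`x_i ∂_i` have no common zero in `(ℂ \ 0) ^ N`. The linear forms with positive coordinates define
exactly the compact faces of `conv {v_j} + ℝ_{≥ 0} ^ N`; some of the `a_j` may be zero, but not those
of the vertices. `IsLocalBFunction f b` says that `b(s) f ^ s = P(s) f ^ (s + 1)` for a differential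
operator `P(s)` with (formal, in particular convergent) power series at the origin as coefficients,
polynomial in `s`; for example `b = b_{f,0}`, the Bernstein-Sato polynomial of the germ.

`R` is any smooth fan with support the positive orthant on which the ideal `(x ^ (v j))_j` becomes
principal, and `topZetaGLocal v R` is the local topological zeta function of `f` at the origin,
computed on `X_R`, an embedded resolution of `f` over a neighbourhood of the origin: the sum over the
cones `σ` of `R` whose orbit lies over the origin (the relative interior of `σ` is in the open
orthant) of
`((chiO σ - chiG v R σ) + chiG v R σ / (s + 1)) ∏_{ρ ∈ σ} 1 / (ord(ρ) s + |ρ|)`,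
`chiO σ` the Euler characteristic of the torus orbit of `σ` and `chiG v R σ` that of the strict
transform of `{f = 0}` in the orbit, `(-1) ^ (N - dim σ - 1)` times the normalised volume of the face
of `σ`, a compact face (Kouchnirenko).

First assertion: `(s + 1) b(s) b(s - 1) ⋯ b(s - K) Z(s)` is a polynomial for some `K`. Second
assertion: for every pole `s0` of `Z` there is `i ∈ ℕ` with `b(s0 - i) = 0`. -/
theorem result {r N : ℕ} (hr : 1 ≤ r) (v : Fin r → Fin N → ℕ) (a : Fin r → ℂ)
    (hv : Function.Injective v) (hv0 : ∀ j, v j ≠ 0) (hnd : NondegC v a) (R : SmoothFan N)
    (hR : Principal v R) (b : ℂ[X]) (hb0 : b ≠ 0)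
    (hb : Pool.Agent.H628R4.TP.IsLocalBFunction (sparse v a) b) :
    (∃ (K : ℕ) (P : ℂ[X]), algebraMap ℂ[X] (RatFunc ℂ)
      ((X + 1) * ∏ i ∈ Finset.range (K + 1), b.comp (X - C (i : ℂ))) * topZetaGLocal v R =
        algebraMap ℂ[X] (RatFunc ℂ) P) ∧
    ∀ s0 : ℂ, (topZetaGLocal v R).denom.eval s0 = 0 → ∃ i : ℕ, b.eval (s0 - i) = 0 := by
  obtain ⟨h1, K, P, hP⟩ := Pool.Agent.Y229.CF.local_cf hr v a hv hv0 hnd R hR b hb0 hb
  exact ⟨⟨K, P, hP⟩, fun s0 hs => pole_of b hb0 h1 _ K P hP s0 hs⟩

end Pool.Agent.Results.MP_aa7fc1_ag.NondegenerateCompactFaces
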