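import Pool.Agent.Y229.PS.Weak

/-!
# The monodromy conjecture for functions on re-embedded germs with nondegenerate equations

A germ `f(x)`, `f(0) = 0`, `x = (x_1, …, x_N)`, of a holomorphic function (or a formal power series) is
called stably nondegenerate if for some `k` the function `f(x) + y_1 z_1 + ⋯ + y_k z_k` becomes, in
suitable formal coordinates at the origin and up to a unit factor, a polynomial which is nondegenerate with respect to the
compact faces of its Newton polyhedron (the usual local nondegeneracy). We prove the (weak)
monodromy conjecture for the local topological zeta function of all these functions. They include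
functions which are very degenerate in all coordinates:

if the germ `(ℂ ^ N, 0)` is embedded as a smooth complete intersection
`V = {l_1(x, z) = ⋯ = l_k(x, z) = 0}` in `(ℂ ^ (N + k), 0)`, `x` being coordinates on `V`, and if `f` is the
restriction to `V` of `F(x, z)`, such that the system `(F, l_1, …, l_k)` is nondegenerate with respect
to its Newton polyhedra (Khovanskii; compact faces only), then `f` is stably nondegenerate:
`f + ∑ y_i z_i` becomes `F + ∑ y_i l_i`. For `k = 0` these are the nondegenerate `f`; for `k > 0` they
are the functions which are resolved by one toric modification of the ambient space of an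
embedding by a nondegenerate complete intersection, as `f = (x_2 ^ 2 - x_1 ^ 3) ^ 2 + x_1 ^ 5 x_2` with
`z = x_2 ^ 2 - x_1 ^ 3`, `F = z ^ 2 + x_1 ^ 5 x_2`, all the products `∏ f_j ^ (m_j)` of powers of the
members of a nondegenerate system (`z_j = f_j(x)`, `F = ∏ z_j ^ (m_j)`), and, in any number of
variables, compositions and iterated constructions of this kind.

The local topological zeta functions `Z_f` of `f` and `Z` of `f + y_1 z_1 + ⋯ + y_k z_k` at the origin
are related by `1 - Z_f(s) = (1 - Z(s - k)) s (s - k + 1) / ((s - k) (s + 1))` (integrate over
the `y_i` first: for an arc with `ord z = c` the value `f + y z` has order `ord f` if `ord f ≤ c`, and is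
otherwise distributed like `t ^ c y`), and `Z` is given by the formula of Denef and Loeser for the
Newton polyhedron.

Method: if `b(s) f ^ s = P f ^ (s + 1)` and `b(s) = (s + 1) c(s)`, then `f + ∑ y_i z_i` has a functional
equation with `(s + 1) c(s + k)`, which is transported to the coordinates where the function is a
nondegenerate polynomial; there it is deformed to very general coefficients (`Y229.CF`), and the
relation obtained gives the pole part of the zeta function.
-/

set_option autoImplicit false

namespace Pool.Agent.Results.MP_aa7fc1_ag.StablyNondegenerateGerms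

open Polynomial Pool.Agent.H628R4.TZ Pool.Agent.W425.SM Pool.Agent.W422.GC
open Pool.Agent.Y229.CF (NondegIC)
open Pool.Agent.Y229.RE (unstab ex)
open Pool.Agent.Y229.PS (StabNondegP IsFormalBFunction)
open Pool.Agent.W749.JI (fam)

/-- **The (weak) monodromy conjecture for the local topological zeta functions of all stably
nondegenerate germs, and of all functions on smooth germs of nondegenerate complete
intersections.**

First part: let `f ∈ ℂ[[x_1, …, x_N]]`, `f ≠ 0`, `f(0) = 0`, be stably nondegenerate
(`StabNondegP f k v`: `f(x) + ∑_{i ≤ k} y_i z_i` becomes in suitable formal coordinates at the origin, up to a unit factor,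
a polynomial `g = ∑_j a_j X ^ (v j)` in `N + 2 k` variables which is nondegenerate for the compact faces of
its Newton polyhedron), and let `b ≠ 0` satisfy `IsFormalBFunction f b`:
`b(s) f ^ s = P(s) f ^ (s + 1)` for a differential operator `P(s)` with (formal, in particular
convergent) power series as coefficients, polynomial in `s`; for example `b = b_f`, the
Bernstein-Sato polynomial of a germ `f` of a holomorphic function. Let `R` be any smooth fan with
support the positive orthant on which the ideal `(X ^ (v j))_j` becomes principal,
`topZetaGLocal v R` the local topological zeta function `Z` of `g` computed on the toric embedded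
resolution, and `unstab k 1 Z` the local topological zeta function of `f`,
`Z_f(s) = 1 - (1 - Z(s - k)) s (s - k + 1) / ((s - k) (s + 1))`. Then for every pole `s0` of
`Z_f` with negative real part (all the poles are negative rational numbers) there is `i ∈ ℕ` with
`b(s0 - i) = 0`.

Second part: let `fam π m c i = ∑_{π j = i} c_j x ^ (m_j)`, `i = 0, …, k`, be polynomials in `N + k`
variables `x, z` without constant terms: `F = fam π m c 0`, `l_i = fam π m c i` for `i ≥ 1`. Let
`(F, l_1, …, l_k)` be nondegenerate for the compact faces of their Newton polyhedra (`NondegIC`), let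
the matrix of the `∂ l_i / ∂ z_j` be invertible at the origin, so that `V = {l = 0}` is smooth with
coordinates `x`, and let `f ∈ ℂ[[x]]` be the restriction of `F` to `V`: `F = f + ∑ q_i l_i` with formal
power series `q_i`, `q_i(0) = 0` (this is automatic if `F` has no linear part). Then `f` is stably
nondegenerate, with the exponents of `F + ∑ y_i l_i` (`ex π m`). -/
theorem result :
    (∀ {N r : ℕ} (f : MvPowerSeries (Fin N) ℂ), f ≠ 0 → MvPowerSeries.constantCoeff f = 0 →
      ∀ b : ℂ[X], b ≠ 0 → IsFormalBFunction f b →
      ∀ (k : ℕ) (v : Fin r → Fin (N + (k + k)) → ℕ), 1 ≤ r → StabNondegP f k v →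
      ∀ R : SmoothFan (N + (k + k)), Principal v R → ∀ s0 : ℂ, s0.re < 0 →
        (unstab k 1 (topZetaGLocal v R)).denom.eval s0 = 0 → ∃ i : ℕ, b.eval (s0 - i) = 0) ∧
    (∀ {N k r : ℕ} (π : Fin r → Fin (k + 1)) (m : Fin r → Fin (N + k) → ℕ) (c : Fin r → ℂ),
      1 ≤ r → (∀ j j', π j = π j' → m j = m j' → j = j') → (∀ j, m j ≠ 0) → NondegIC π m c →
      (Matrix.of fun i j : Fin k => MvPolynomial.coeff (Finsupp.single (Fin.natAdd N j) 1)
        (fam π m c i.succ)).det ≠ 0 →
      ∀ (f : MvPowerSeries (Fin N) ℂ) (q : Fin k → MvPowerSeries (Fin (N + k)) ℂ),
        (∀ i, MvPowerSeries.constantCoeff (q i) = 0) →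
        (fam π m c 0 : MvPowerSeries (Fin (N + k)) ℂ) =
          MvPowerSeries.rename (Fin.castAdd k) f +
            ∑ i, q i * (fam π m c i.succ : MvPowerSeries (Fin (N + k)) ℂ) →
        StabNondegP f k (ex π m)) := by
  refine ⟨?_, ?_⟩
  · intro N r f hf0 hf b hb0 hb k v hr hv R hR s0 hre hs
    by_contra hcon
    push Not at hcon
    have h1 := Pool.Agent.Y229.PS.local_stabP f hf0 hf b hb0 hb k hr v hv R hR 1 le_rfl s0 hre hcon
    rw [Pool.Agent.Y229.GL.tw_one] at h1
    exact h1.denom hs
  · intro N k r π m c hr hinj hm hnd hdet f q hq hF
    exact Pool.Agent.Y229.PS.stabP_of_emb hr π m hinj hm c hnd hdet f q hq hF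

end Pool.Agent.Results.MP_aa7fc1_ag.StablyNondegenerateGerms
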